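import Mathlib

/-!
# Project SZ, job CLA: the elementary part
-/

set_option autoImplicit false

namespace V5helper61.SZ

lemma claim {K₀ K₁ K₂ K₃ η : ℝ} (hK0 : 0 ≤ K₀) (hK1 : 0 ≤ K₁) (hK2 : 0 ≤ K₂) (hK3 : 0 ≤ K₃)
    (hη0 : 0 < η) (hη1 : η ≤ 1) {n : ℕ} {y N : ℝ} (hy : 0 < y) (hyK : 1 / y ≤ K₀)
    (h1 : N ≤ K₁ * (1 + n) * y ^ (3 / 4 : ℝ) * 2 ^ ((n : ℝ) / 2))
    (h2 : N ≤ K₂ * (y + 1) ^ 2)
    (h3 : 1 ≤ y → (n : ℝ) ≤ 4 * (1 + Real.logb 2 y) → N ≤ K₃ * y ^ (2 - η)) :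
    N / y ≤ (8 * K₂ + 4 * K₀ * K₂ + K₁ + K₃) * (1 + n) * 2 ^ ((2 / 5 - η / 50) * (n : ℝ)) := by
  have hn0 : (0 : ℝ) ≤ n := Nat.cast_nonneg n
  have hE : (0 : ℝ) ≤ 2 / 5 - η / 50 := by linarith
  have hP1 : (1 : ℝ) ≤ 2 ^ ((2 / 5 - η / 50) * (n : ℝ)) :=
    Real.one_le_rpow (by norm_num) (mul_nonneg hE hn0)
  obtain ⟨P, hP⟩ : ∃ P : ℝ, P = 2 ^ ((2 / 5 - η / 50) * (n : ℝ)) := ⟨_, rfl⟩
  rw [← hP] at hP1 ⊢
  have hP0 : 0 ≤ P := by linarith
  -- a general comparison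
  have fin : ∀ a : ℝ, 0 ≤ a → a ≤ 8 * K₂ + 4 * K₀ * K₂ + K₁ + K₃ → ∀ b : ℝ, b ≤ a * (1 + n) * P →
      b ≤ (8 * K₂ + 4 * K₀ * K₂ + K₁ + K₃) * (1 + n) * P := by
    intro a _ ha b hb
    refine hb.trans ?_
    have : 0 ≤ (1 + (n : ℝ)) * P := mul_nonneg (by linarith) hP0
    nlinarith
  have hKK : 0 ≤ K₀ * K₂ := mul_nonneg hK0 hK2
  rcases lt_or_ge y 1 with hy1 | hy1
  · refine fin (4 * K₀ * K₂) (by linarith) (by linarith) _ ?_
    have a1 : N ≤ 4 * K₂ := h2.trans (by nlinarith [mul_nonneg hK2 hy.le])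
    have a2 : N / y ≤ 4 * K₂ * K₀ := by
      rw [div_eq_mul_one_div]
      have : 0 ≤ 1 / y := by positivity
      nlinarith
    have a3 : 1 ≤ (1 + (n : ℝ)) * P := by nlinarith
    nlinarith
  · rcases le_or_gt y (2 * 2 ^ ((n : ℝ) / 4)) with hy2 | hy2
    · refine fin (8 * K₂) (by linarith) (by linarith) _ ?_
      have a1 : N ≤ 4 * K₂ * y ^ 2 := h2.trans (by nlinarith [mul_nonneg hK2 (sub_nonneg.2 hy1)])
      have a2 : N / y ≤ 4 * K₂ * y := by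
        rw [div_le_iff₀ hy]
        nlinarith
      have a3 : (2 : ℝ) ^ ((n : ℝ) / 4) ≤ P := by
        rw [hP]
        refine Real.rpow_le_rpow_of_exponent_le (by norm_num) ?_
        nlinarith
      have a4 : N / y ≤ 8 * K₂ * P := a2.trans (by nlinarith)
      nlinarith [mul_nonneg (mul_nonneg hK2 hn0) hP0]
    · have hlog : (n : ℝ) ≤ 4 * (1 + Real.logb 2 y) := by
        have b1 : Real.logb 2 (2 ^ ((n : ℝ) / 4)) ≤ Real.logb 2 y := by
          refine Real.logb_le_logb_of_le (by norm_num) (by positivity) ?_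
          have : (0 : ℝ) < 2 ^ ((n : ℝ) / 4) := by positivity
          linarith
        rw [Real.logb_rpow (by norm_num) (by norm_num)] at b1
        linarith
      have h3' := h3 hy1 hlog
      rcases le_or_gt y (2 ^ ((2 / 5 + 2 * η / 25) * (n : ℝ))) with hy3 | hy3
      · refine fin K₃ hK3 (by linarith) _ ?_
        have a1 : N / y ≤ K₃ * y ^ (1 - η) := by
          rw [div_le_iff₀ hy, mul_assoc, ← Real.rpow_add_one hy.ne']
          rw [show 1 - η + 1 = 2 - η by ring]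
          exact h3'
        have a2 : y ^ (1 - η) ≤ P := by
          calc y ^ (1 - η) ≤ (2 ^ ((2 / 5 + 2 * η / 25) * (n : ℝ))) ^ (1 - η) :=
                Real.rpow_le_rpow hy.le hy3 (by linarith)
            _ = 2 ^ ((2 / 5 + 2 * η / 25) * (n : ℝ) * (1 - η)) := by
                rw [← Real.rpow_mul (by norm_num)]
            _ ≤ P := by
                rw [hP]
                refine Real.rpow_le_rpow_of_exponent_le (by norm_num) ?_
                have : (2 / 5 + 2 * η / 25) * (1 - η) ≤ 2 / 5 - η / 50 := by nlinarith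
                nlinarith
        have a3 : N / y ≤ K₃ * P := a1.trans (mul_le_mul_of_nonneg_left a2 hK3)
        nlinarith [mul_nonneg (mul_nonneg hK3 hn0) hP0]
      · refine fin K₁ hK1 (by linarith) _ ?_
        have a1 : N / y ≤ K₁ * (1 + n) * (y ^ (-(1 / 4) : ℝ) * 2 ^ ((n : ℝ) / 2)) := by
          rw [div_le_iff₀ hy]
          have : y ^ (-(1 / 4) : ℝ) * y = y ^ (3 / 4 : ℝ) := by
            rw [← Real.rpow_add_one hy.ne']
            norm_num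
          calc N ≤ _ := h1
            _ = K₁ * (1 + n) * ((y ^ (-(1 / 4) : ℝ) * y) * 2 ^ ((n : ℝ) / 2)) := by
              rw [this]; ring
            _ = _ := by ring
        have a2 : y ^ (-(1 / 4) : ℝ) * 2 ^ ((n : ℝ) / 2) ≤ P := by
          have b1 : y ^ (-(1 / 4) : ℝ) ≤ (2 ^ ((2 / 5 + 2 * η / 25) * (n : ℝ))) ^ (-(1 / 4) : ℝ) :=
            Real.rpow_le_rpow_of_nonpos (by positivity) hy3.le (by norm_num)
          rw [← Real.rpow_mul (by norm_num)] at b1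
          calc y ^ (-(1 / 4) : ℝ) * 2 ^ ((n : ℝ) / 2)
              ≤ 2 ^ ((2 / 5 + 2 * η / 25) * (n : ℝ) * (-(1 / 4) : ℝ)) * 2 ^ ((n : ℝ) / 2) :=
                mul_le_mul_of_nonneg_right b1 (by positivity)
            _ = 2 ^ ((2 / 5 + 2 * η / 25) * (n : ℝ) * (-(1 / 4) : ℝ) + (n : ℝ) / 2) := by
                rw [Real.rpow_add (by norm_num)]
            _ = P := by
                rw [hP]
                congr 1
                ring
        refine a1.trans ?_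
        exact mul_le_mul_of_nonneg_left a2 (mul_nonneg hK1 (by linarith))

/-- polynomial and exponential growth -/
lemma poly_le {η : ℝ} (hη : 0 < η) : ∃ K : ℝ, 0 ≤ K ∧ ∀ n : ℕ, (1 + (n : ℝ)) ^ 2 ≤ K * 2 ^ (η * (n : ℝ)) := by
  obtain ⟨c, hc⟩ : ∃ c : ℝ, c = min 1 (η * Real.log 2 / 2) := ⟨_, rfl⟩
  have hl : 0 < Real.log 2 := Real.log_pos (by norm_num)
  have hc0 : 0 < c := by
    rw [hc]
    exact lt_min one_pos (by positivity)
  have hc1 : c ≤ 1 := by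
    rw [hc]
    exact min_le_left _ _
  have hc2 : c ≤ η * Real.log 2 / 2 := by
    rw [hc]
    exact min_le_right _ _
  refine ⟨(1 / c) ^ 2, by positivity, fun n => ?_⟩
  have hn0 : (0 : ℝ) ≤ n := Nat.cast_nonneg n
  have h1 : 1 + (n : ℝ) ≤ 1 / c * Real.exp (c * n) := by
    have h2 := Real.add_one_le_exp (c * n)
    have h3 : 1 + (n : ℝ) ≤ 1 / c * (c * n + 1) := by
      have : 1 / c * (c * n + 1) = n + 1 / c := by
        field_simp
      rw [this]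
      have h4 : 1 ≤ 1 / c := by
        rw [le_div_iff₀ hc0]
        linarith
      linarith
    refine h3.trans (mul_le_mul_of_nonneg_left h2 (by positivity))
  have h4 : Real.exp (c * n) ^ 2 ≤ 2 ^ (η * (n : ℝ)) := by
    rw [← Real.exp_nat_mul, Real.rpow_def_of_pos (by norm_num)]
    refine Real.exp_le_exp.2 ?_
    push_cast
    nlinarith
  calc (1 + (n : ℝ)) ^ 2 ≤ (1 / c * Real.exp (c * n)) ^ 2 := pow_le_pow_left₀ (by linarith) h1 2
    _ = (1 / c) ^ 2 * Real.exp (c * n) ^ 2 := by ring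
    _ ≤ _ := mul_le_mul_of_nonneg_left h4 (by positivity)

lemma core {K₀ K₁ K₂ K₃ η : ℝ} (hK0 : 0 < K₀) (hK1 : 0 ≤ K₁) (hK2 : 0 ≤ K₂) (hK3 : 0 ≤ K₃)
    (hη0 : 0 < η) (hη1 : η ≤ 1) : ∃ K : ℝ, 0 ≤ K ∧ ∀ (n : ℕ) (σ : ℝ), 0 < σ →
    ∀ (s : Finset ℕ) (d : ℕ → ℝ), (∀ j ∈ s, 0 < d j ∧ d j ≤ K₀ * σ) → (s.card : ℝ) ≤ 2 ^ n →
    (∀ ε : ℝ, 0 < ε → ∀ s' ⊆ s, (∀ j ∈ s', ε ≤ d j) →
      (s'.card : ℝ) ≤ K₁ * (1 + n) * (σ / ε) ^ (3 / 4 : ℝ) * 2 ^ ((n : ℝ) / 2)) →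
    (∀ ε : ℝ, 0 < ε → ∀ s' ⊆ s, (∀ j ∈ s', ε ≤ d j) → (s'.card : ℝ) ≤ K₂ * (σ / ε + 1) ^ 2) →
    (∀ ε : ℝ, 0 < ε → ε ≤ σ → (n : ℝ) ≤ 4 * (1 + Real.logb 2 (σ / ε)) →
      ∀ s' ⊆ s, (∀ j ∈ s', ε ≤ d j ∧ d j ≤ 2 * ε) → (s'.card : ℝ) ≤ K₃ * (σ / ε) ^ (2 - η)) →
    ∑ j ∈ s, d j ≤ K * σ * 2 ^ ((2 / 5 - η / 100) * (n : ℝ)) := by
  obtain ⟨Kp, hKp0, hKp⟩ := poly_le (show 0 < η / 100 by positivity)
  obtain ⟨Kc, hKc⟩ : ∃ Kc : ℝ, Kc = 8 * K₂ + 4 * K₀ * K₂ + K₁ + K₃ := ⟨_, rfl⟩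
  have hKc0 : 0 ≤ Kc := by
    rw [hKc]
    positivity
  refine ⟨(K₀ + 2 * Kc) * Kp, by positivity, ?_⟩
  intro n σ hσ s d hd hcard h1 h2 h3
  have hn0 : (0 : ℝ) ≤ n := Nat.cast_nonneg n
  obtain ⟨E, hE⟩ : ∃ E : ℕ → ℝ, ∀ b, E b = (1 / 2) ^ (b + 1) * K₀ * σ := ⟨_, fun _ => rfl⟩
  have hEpos : ∀ b, 0 < E b := fun b => by
    rw [hE]
    positivity
  have hE2 : ∀ b, E b = 2 * E (b + 1) := fun b => by
    rw [hE, hE]
    ring
  have hE0 : 2 * E 0 = K₀ * σ := by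
    rw [hE]
    ring
  -- the classes
  have hdec : ∑ j ∈ s, d j ≤ ∑ j ∈ s, (E n + ∑ b ∈ Finset.range (n + 1),
      if E b < d j ∧ d j ≤ 2 * E b then d j else 0) := by
    refine Finset.sum_le_sum fun j hj => ?_
    have hnn : ∀ b ∈ Finset.range (n + 1), (0 : ℝ) ≤ if E b < d j ∧ d j ≤ 2 * E b then d j else 0 := by
      intro b _
      split_ifs
      · exact (hd j hj).1.le
      · exact le_rfl
    by_cases hc : d j ≤ E n
    · have := Finset.sum_nonneg hnn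
      linarith
    · rw [not_le] at hc
      have hex : ∃ b, E b < d j := ⟨n, hc⟩
      classical
      obtain ⟨b, hb, hmin⟩ : ∃ b, E b < d j ∧ ∀ a < b, ¬ E a < d j :=
        ⟨Nat.find hex, Nat.find_spec hex, fun a ha => Nat.find_min hex ha⟩
      have hbn : b ≤ n := by
        by_contra hcon
        exact hmin n (by omega) hc
      have hb2 : d j ≤ 2 * E b := by
        rcases b with _ | b
        · rw [hE0]
          exact (hd j hj).2
        · have := hmin b (Nat.lt_succ_self b)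
          rw [not_lt, hE2 b] at this
          exact this
      have h5 := Finset.single_le_sum hnn (Finset.mem_range.2 (Nat.lt_succ_of_le hbn))
      rw [if_pos ⟨hb, hb2⟩] at h5
      have := hEpos n
      linarith
  -- the single classes
  have hcl : ∀ b ∈ Finset.range (n + 1), ∑ j ∈ s, (if E b < d j ∧ d j ≤ 2 * E b then d j else 0) ≤
      2 * Kc * (1 + n) * 2 ^ ((2 / 5 - η / 50) * (n : ℝ)) * σ := by
    intro b _
    rw [← Finset.sum_filter]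
    have e1 : ∑ j ∈ s.filter (fun j => E b < d j ∧ d j ≤ 2 * E b), d j ≤
        ((s.filter (fun j => E b < d j ∧ d j ≤ 2 * E b)).card : ℝ) * (2 * E b) := by
      rw [← nsmul_eq_mul]
      exact Finset.sum_le_card_nsmul _ _ _ fun j hj => (Finset.mem_filter.1 hj).2.2
    have hsub := Finset.filter_subset (fun j => E b < d j ∧ d j ≤ 2 * E b) s
    have e2 := claim (K₀ := K₀) hK0.le hK1 hK2 hK3 hη0 hη1 (n := n) (y := σ / E b)
      (N := ((s.filter (fun j => E b < d j ∧ d j ≤ 2 * E b)).card : ℝ)) (div_pos hσ (hEpos b))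
      (by
        rw [one_div_div, hE, mul_div_assoc, div_self hσ.ne', mul_one]
        have : (1 / 2 : ℝ) ^ (b + 1) ≤ 1 := pow_le_one₀ (by norm_num) (by norm_num)
        nlinarith)
      (h1 _ (hEpos b) _ hsub fun j hj => (Finset.mem_filter.1 hj).2.1.le)
      (h2 _ (hEpos b) _ hsub fun j hj => (Finset.mem_filter.1 hj).2.1.le)
      (fun hy1 hlog => h3 _ (hEpos b) (by
          rw [le_div_iff₀ (hEpos b), one_mul] at hy1
          exact hy1) hlog _ hsub fun j hj =>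
        ⟨(Finset.mem_filter.1 hj).2.1.le, (Finset.mem_filter.1 hj).2.2⟩)
    rw [← hKc, div_div_eq_mul_div, div_le_iff₀ hσ] at e2
    linarith
  have htot : ∑ j ∈ s, d j ≤ K₀ * σ + (1 + n) * (2 * Kc * (1 + n) * 2 ^ ((2 / 5 - η / 50) * (n : ℝ)) * σ) := by
    refine hdec.trans ?_
    rw [Finset.sum_add_distrib, Finset.sum_comm]
    refine add_le_add ?_ ?_
    · rw [Finset.sum_const, nsmul_eq_mul, hE]
      have e3 : (s.card : ℝ) * ((1 / 2) ^ (n + 1) * K₀ * σ) ≤ 2 ^ n * ((1 / 2) ^ (n + 1) * K₀ * σ) :=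
        mul_le_mul_of_nonneg_right hcard (by positivity)
      refine e3.trans ?_
      have e4 : (2 : ℝ) ^ n * ((1 / 2) ^ (n + 1) * K₀ * σ) = K₀ * σ / 2 := by
        rw [pow_succ]
        have : (2 : ℝ) ^ n * (1 / 2) ^ n = 1 := by
          rw [← mul_pow]
          norm_num
        linear_combination (K₀ * σ / 2) * this
      rw [e4]
      nlinarith [mul_pos hK0 hσ]
    · refine (Finset.sum_le_sum hcl).trans ?_
      rw [Finset.sum_const, Finset.card_range, nsmul_eq_mul]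
      push_cast
      rw [add_comm (n : ℝ) 1]
  refine htot.trans ?_
  have hsplit : (2 : ℝ) ^ ((2 / 5 - η / 100) * (n : ℝ)) =
      2 ^ ((2 / 5 - η / 50) * (n : ℝ)) * 2 ^ (η / 100 * (n : ℝ)) := by
    rw [← Real.rpow_add (by norm_num)]
    congr 1
    ring
  obtain ⟨P, hP⟩ : ∃ P : ℝ, P = 2 ^ ((2 / 5 - η / 50) * (n : ℝ)) := ⟨_, rfl⟩
  have hP1 : 1 ≤ P := by
    rw [hP]
    exact Real.one_le_rpow (by norm_num) (mul_nonneg (by linarith) hn0)
  rw [hsplit, ← hP]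
  have hp := hKp n
  obtain ⟨Q, hQ⟩ : ∃ Q : ℝ, Q = 2 ^ (η / 100 * (n : ℝ)) := ⟨_, rfl⟩
  rw [← hQ] at hp ⊢
  have e5 : 1 ≤ (1 + (n : ℝ)) ^ 2 := by nlinarith
  have e6 : K₀ * σ ≤ K₀ * σ * ((1 + (n : ℝ)) ^ 2 * P) := by
    have : 1 ≤ (1 + (n : ℝ)) ^ 2 * P := by nlinarith
    nlinarith [mul_pos hK0 hσ]
  have e7 : K₀ * σ + (1 + n) * (2 * Kc * (1 + n) * P * σ) ≤
      ((K₀ + 2 * Kc) * σ * P) * (1 + (n : ℝ)) ^ 2 := by
    nlinarith
  refine e7.trans ?_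
  have e8 : 0 ≤ (K₀ + 2 * Kc) * σ * P := by positivity
  calc ((K₀ + 2 * Kc) * σ * P) * (1 + (n : ℝ)) ^ 2 ≤ ((K₀ + 2 * Kc) * σ * P) * (Kp * Q) :=
        mul_le_mul_of_nonneg_left hp e8
    _ = _ := by ring

end V5helper61.SZ
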