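import Pool.Agent.V5helper73.SZ.StmC
import Pool.Agent.V5helper61.SZ.Core

/-!
# Project SZ, job CLA: one level of modulus
-/

set_option autoImplicit false

namespace V5helper61.SZ

open V5helper73.SZ

lemma tree_mono {C C' : ℝ} (h : C ≤ C') {w : ℕ → ℕ → ℂ} {d : ℕ → ℕ → ℝ} (T : Tree C w d) :
    Tree C' w d where
  pos := T.pos
  step := fun k i => (T.step k i).trans (mul_le_mul_of_nonneg_right h (T.pos _ _).le)
  child := fun k i => (T.child k i).trans (mul_le_mul_of_nonneg_right h (T.pos _ _).le)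
  parent := fun k i => (T.parent k i).trans (mul_le_mul_of_nonneg_right h (T.pos _ _).le)
  sep := fun k i i' h1 h2 h3 h4 =>
    (T.sep k i i' h1 h2 h3 h4).trans (mul_le_mul_of_nonneg_right h (norm_nonneg _))
  root := T.root
  one := T.one
  up := fun k i => (T.up k i).trans (mul_le_mul_of_nonneg_right h (by positivity))
  low := fun k i hk => (T.low k i hk).trans (mul_le_mul_of_nonneg_right h (norm_nonneg _))
  whit := fun k i l j => (T.whit k i l j).trans
    (mul_le_mul_of_nonneg_right h (add_nonneg (norm_nonneg _) (T.pos _ _).le))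

theorem t_CLA (hT : S_TREE) (hA : S_AR) (hJ : S_JM) (hB : S_B1) : S_CLA := by
  intro R hR
  obtain ⟨C, hC⟩ : ∃ C : ℝ, C = 2000002 + R := ⟨_, rfl⟩
  have hC1 : 1 ≤ C := by linarith
  have hC2 : 2 ≤ C := by linarith
  have hCR : R + 1 ≤ C := by linarith
  obtain ⟨K₂, hK₂⟩ := hA C hC1
  obtain ⟨K₃, η₀, hη0, hη1, hK₃⟩ := hJ C 4 hC1 (by norm_num)
  obtain ⟨K₁, hK10, hK₁⟩ := hB R hR
  obtain ⟨K, hK0, hK⟩ := core (K₀ := C * C) (K₁ := K₁) (K₂ := |K₂|) (K₃ := |K₃|) (η := η₀)
    (by positivity) hK10 (abs_nonneg _) (abs_nonneg _) hη0 hη1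
  refine ⟨K, η₀ / 100, hK0, by positivity, by linarith, ?_⟩
  intro f hf k m i hk hkm hi s M hM hs
  have T : Tree C (fun k i => f (pt k i)) (fun k i => dd f (pt k i)) :=
    tree_mono (by linarith) (hT f hf)
  have hD : 0 < dd f (pt k i) := T.pos k i
  have hσ : 0 < min M (dd f (pt k i)) := lt_min hM hD
  have hn : ((m : ℝ) - k) = ((m - k : ℕ) : ℝ) := by
    rw [Nat.cast_sub hkm]
  have hcen : ∃ c : ℂ, ∀ j ∈ s, ‖f (pt m j) - c‖ ≤ C * min M (dd f (pt k i)) := by
    rcases le_total M (dd f (pt k i)) with h | h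
    · refine ⟨0, fun j hj => ?_⟩
      rw [min_eq_left h, sub_zero]
      have := (hs j hj).2.2.2.2
      nlinarith
    · refine ⟨f (pt k i), fun j hj => ?_⟩
      rw [min_eq_right h]
      have := (hs j hj).2.2.1
      nlinarith
  obtain ⟨c, hc⟩ := hcen
  rw [hn]
  refine hK (m - k) _ hσ s (fun j => dd f (pt m j)) ?_ ?_ ?_ ?_ ?_
  · intro j hj
    obtain ⟨h1, h2, h3, h4, h5⟩ := hs j hj
    refine ⟨T.pos m j, ?_⟩
    have e1 : dd f (pt m j) ≤ C * ‖f (pt m j)‖ := T.low m j (by omega)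
    have e2 : dd f (pt m j) ≤ C * (‖f (pt m j) - f (pt k i)‖ + dd f (pt k i)) := T.whit m j k i
    have e3 : dd f (pt m j) ≤ C * C * M := by
      have : ‖f (pt m j)‖ ≤ C * M := by nlinarith
      have : C * ‖f (pt m j)‖ ≤ C * (C * M) := mul_le_mul_of_nonneg_left this (by linarith)
      linarith
    have e4 : dd f (pt m j) ≤ C * C * dd f (pt k i) := by
      have : ‖f (pt m j) - f (pt k i)‖ + dd f (pt k i) ≤ C * dd f (pt k i) := by nlinarith
      have : C * (‖f (pt m j) - f (pt k i)‖ + dd f (pt k i)) ≤ C * (C * dd f (pt k i)) :=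
        mul_le_mul_of_nonneg_left this (by linarith)
      linarith
    rcases le_total M (dd f (pt k i)) with h | h
    · rw [min_eq_left h]
      exact e3
    · rw [min_eq_right h]
      exact e4
  · have hsub : s ⊆ Finset.Ico (i * 2 ^ (m - k)) ((i + 1) * 2 ^ (m - k)) := by
      intro j hj
      have h2 := (hs j hj).2.1
      have hp : 0 < 2 ^ (m - k) := by positivity
      have h3 := (Nat.div_eq_iff hp).1 h2
      rw [Finset.mem_Ico, add_mul, one_mul]
      omega
    have h1 := Finset.card_le_card hsub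
    rw [Nat.card_Ico] at h1
    have h2 : (i + 1) * 2 ^ (m - k) - i * 2 ^ (m - k) = 2 ^ (m - k) := by
      rw [add_mul, one_mul, Nat.add_sub_cancel_left]
    rw [h2] at h1
    exact_mod_cast h1
  · intro ε hε s' hs' hd
    have := hK₁ f hf k m i hk hkm hi s' ε M hε hM fun j hj =>
      ⟨(hs j (hs' hj)).1, (hs j (hs' hj)).2.1, (hs j (hs' hj)).2.2.1, (hs j (hs' hj)).2.2.2.1,
        (hs j (hs' hj)).2.2.2.2, hd j hj⟩
    rw [hn] at this
    exact this
  · intro ε hε s' hs' hd
    have h1 := hK₂ _ _ T m s' (min M (dd f (pt k i))) ε c hε hσ.le fun j hj =>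
      ⟨(hs j (hs' hj)).1, hc j (hs' hj), hd j hj⟩
    refine h1.trans (mul_le_mul_of_nonneg_right (le_abs_self _) (by positivity))
  · intro ε hε hεσ hlog s' hs' hd
    have h1 := hK₃ _ _ T k m i hkm hi (min M (dd f (pt k i))) ε c hε hεσ (by
      have := min_le_right M (dd f (pt k i))
      nlinarith) (by rw [hn]; exact hlog)
    have h2 : s' ⊆ (Finset.range (2 ^ m)).filter (fun j => j / 2 ^ (m - k) = i ∧
        ‖f (pt m j) - c‖ ≤ C * min M (dd f (pt k i)) ∧ ε ≤ dd f (pt m j) ∧ dd f (pt m j) ≤ 2 * ε) := by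
      intro j hj
      rw [Finset.mem_filter, Finset.mem_range]
      exact ⟨(hs j (hs' hj)).1, (hs j (hs' hj)).2.1, hc j (hs' hj), (hd j hj).1, (hd j hj).2⟩
    refine ((Nat.cast_le.2 (Finset.card_le_card h2)).trans h1).trans
      (mul_le_mul_of_nonneg_right (le_abs_self _) ?_)
    exact Real.rpow_nonneg (div_nonneg hσ.le hε.le) _

end V5helper61.SZ
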